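import Pool.Agent.H77.KG.Targets

/-!
# MP_9d0bb7_lc, board kgr_modules, row MD2: minimal modules, finite radical
-/

set_option autoImplicit false

open Set Pool.Agent.H77.BC Pool.Agent.H77.BD Pool.Agent.H77.KG

namespace Pool.Agent.H35.KGR

/-- the end of the proof, in the larger universe -/
private theorem core (hMC1 : T_MC1) (hMC2 : T_MC2) (hMC3 : T_MC3) (hHMI : T_HMI)
    {M : Type} (U : RU M) {H V : Type} [Group H] [AddCommGroup V] [DistribMulAction H V]
    [Cod M H] [Cod M V] [DG U H] [DAb U V] [DA U H V] (hconn : Conn U (⊤ : Subgroup H))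
    (hmn : Mn U (⊤ : Subgroup H) (⊤ : AddSubgroup V)) (hfaith : FaithfulSMul H V)
    {G' S' I : Type} {L : I → Type} [Group G'] [MulAction G' S'] [Cod M G'] [Cod M S']
    [DG U G'] [iL : ∀ i, Group (L i)] (π : H →* ∀ i, L i)
    (hker : (π.ker : Set H).Finite) (x : V) (p : H →* G') (q : V → S')
    (hp : Function.Surjective p) (hdp : DFn U (fun g => p g)) (j : G' ≃* ∀ i, L i)
    (hj : ∀ g, j (p g) = π g)
    (hq : ∀ h : H, ∀ y ∈ MulAction.orbit H x, q (h • y) = p h • q y)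
    (hq2 : ∀ y ∈ MulAction.orbit H x, ∀ z ∈ MulAction.orbit H x, q y = q z →
      ∃ r ∈ π.ker, z = r • y)
    (hRG : U.R (univ : Set G') = U.R (univ : Set H)) (n : ℕ) (hn : U.R (univ : Set V) = n)
    (hn1 : 1 ≤ n) (hsso : SSo U (S := S') j n) : False := by
  have hpk : p.ker = π.ker := by
    ext g
    rw [MonoidHom.mem_ker, MonoidHom.mem_ker, ← hj g]
    constructor
    · intro h
      rw [h, map_one]
    · intro h
      exact j.injective (by rw [h, map_one])
  have hkp : (p.ker : Set H).Finite := by rw [hpk]; exact hker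
  have hRKA := Pool.Agent.H77.BCP.a_RKA U
  have hY : ∀ c : ℕ, (∀ Y' : Subgroup G', U.D (Y' : Set G') → Y' ≠ ⊤ →
      U.R (Y' : Set G') + c ≤ U.R (univ : Set G')) → ∀ Y : Subgroup H, U.D (Y : Set H) →
      Y ≠ ⊤ → U.R (Y : Set H) + c ≤ U.R (univ : Set H) := by
    intro c hc Y hD hne
    obtain ⟨h1, h2, -⟩ := (hHMI U p hdp).1 Y hD
    have hfin : ((Y ⊓ p.ker : Subgroup H) : Set H).Finite :=
      hkp.subset fun g hg => hg.2
    have h3 : U.R ((Y ⊓ p.ker : Subgroup H) : Set H) = 0 :=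
      (hRKA.fin (D_finite hfin) ⟨1, (Y ⊓ p.ker).one_mem⟩).2 hfin
    rw [h3, add_zero] at h2
    have h4 : Y.map p ≠ ⊤ := by
      intro h5
      apply hne
      apply hconn.2 Y le_top hD
      rw [h2, h5, Subgroup.coe_top, Subgroup.coe_top, hRG]
    have h5 := hc _ h1 h4
    rw [h2, ← hRG]
    exact h5
  rcases hsso with ⟨-, h2, F, iF, iA, hN⟩ | ⟨hn2, h6, h2, hP⟩ |
    ⟨hn2, h6, i, j', hij, hall, hPi, hPj, hCi, hCj⟩
  · refine hMC1 U hconn hmn ?_ n hn1 hN p hp hkp x q hq ?_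
    · intro Y hD hne
      rw [hn]
      exact hY n h2 Y hD hne
    · intro s
      by_cases h : ∃ y, y ∈ MulAction.orbit H x ∧ q y = s
      · obtain ⟨y, hy, hys⟩ := h
        refine (hker.image fun r => r • y).subset ?_
        rintro z ⟨hz, hzs⟩
        obtain ⟨r, hr, hzr⟩ := hq2 y hy z hz (hys.trans hzs.symm)
        exact ⟨r, hr, hzr.symm⟩
      · refine (finite_empty).subset ?_
        rintro z hz
        exact h ⟨z, hz⟩
  · have h3 := hMC2 U hconn hmn (by
      intro Y hD hne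
      rw [hn, hn2]
      exact hY 2 h2 Y hD hne) hP p hp hkp
    have h4 : ∀ h : H, h = 1 := fun h => hfaith.eq_of_smul_eq_smul fun v => by
      rw [h3 h v, one_smul]
    have h5 : (univ : Set H).Finite := (finite_singleton (1 : H)).subset fun h _ => h4 h
    have h7 : U.R (univ : Set H) = 0 := (hRKA.fin Ful.full ⟨1, mem_univ _⟩).2 h5
    rw [hRG, h7] at h6
    omega
  · exact hMC3 U hconn hmn hfaith (by rw [hn, hn2]) j i j' hij hall hPi hPj hCi.1 hCj p hdp hp hkp

theorem pf_MD2 (hGTA : T_GTA) (hGTS : T_GTS) (_hGTM : T_GTM) (hFRD : T_FRD) (hSSR : T_SSR)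
    (hMC1 : T_MC1) (hMC2 : T_MC2) (hMC3 : T_MC3) (hMNC : T_MNC) (_hADT : T_ADT)
    (_hORB : T_ORB) (hEXA : T_EXA) (hEXB : T_EXB) (hHMI : T_HMI) (_hCTD : T_CTD) : T_MD2 := by
  classical
  intro P hP C hC M U hCU H V I L iH iV iA cH cV dH dV dA fI iL π hconn hmn hfaith hPL hπ hker hGT
  obtain ⟨v, hv⟩ : ∃ v, v = U.R (univ : Set V) := ⟨_, rfl⟩
  have hRKA := Pool.Agent.H77.BCP.a_RKA U
  have hinf : (univ : Set V).Infinite := hmn.2.2.1
  have hv1 : 1 ≤ v := by
    by_contra h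
    have h0 : U.R (univ : Set V) = 0 := by omega
    exact hinf ((hRKA.fin Ful.full ⟨0, mem_univ _⟩).1 h0)
  rw [← hv] at hGT
  obtain ⟨x, hx, -⟩ := hGTS U v hGT
  have hRH := hGTA U (v + 1) hGT
  rw [← hv] at hx hRH
  have hDO : U.D (MulAction.orbit H x) := D_orb x
  have fO : Ful U (MulAction.orbit H x) := ful_sub hDO
  have aO : DA U H (MulAction.orbit H x) := ⟨by
    refine DFn_smk (p := fun y => y ∈ MulAction.orbit H x) hDO ?_
    exact DFn_act (f := fun a : H × (MulAction.orbit H x) => a.1)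
      (s := fun a : H × (MulAction.orbit H x) => (a.2 : V)) DFn_fst
      (DFn_comp (g := fun y : MulAction.orbit H x => (y : V)) (DFn_sval' hDO) DFn_snd)⟩
  have faO : FaithfulSMul H (MulAction.orbit H x) := ⟨by
    intro h1 h2 h12
    let A : AddSubgroup V :=
      { carrier := {w | (h2⁻¹ * h1) • w = w}
        zero_mem' := smul_zero _
        add_mem' := by
          intro a b ha hb
          change (h2⁻¹ * h1) • (a + b) = a + b
          rw [smul_add, ha, hb]
        neg_mem' := by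
          intro a ha
          change (h2⁻¹ * h1) • (-a) = -a
          rw [smul_neg, ha] }
    have hDA : U.D (A : Set V) := D_eqf (DFn_act (DFn_const _) DFn_id) DFn_id
    have hOA : MulAction.orbit H x ⊆ (A : Set V) := by
      intro y hy
      change (h2⁻¹ * h1) • y = y
      have h3 := congrArg Subtype.val (h12 ⟨y, hy⟩)
      have h4 : h1 • y = h2 • y := h3
      rw [mul_smul, h4, inv_smul_smul]
    have hR : U.R ((⊤ : AddSubgroup V) : Set V) ≤ U.R (A : Set V) := by
      have h3 := hRKA.mono hDO hDA ⟨x, MulAction.mem_orbit_self x⟩ hOA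
      rw [hx, hv] at h3
      exact h3
    have hA := (hMNC U ⊤ ⊤ hmn).2 A le_top hDA hR
    refine hfaith.eq_of_smul_eq_smul fun w => ?_
    have hw : w ∈ A := by rw [hA]; trivial
    have h5 : (h2⁻¹ * h1) • w = w := hw
    rw [mul_smul, inv_smul_eq_iff] at h5
    exact h5⟩
  obtain ⟨M', U', e, hE, G', S', gG', mS', cG, cS, p, q, j, hCU', dG', fS', aS', faS', trS', hQt,
    hj, hqq, hRG', hRS'⟩ := hFRD P hP C hC U hCU (G := H) (S := MulAction.orbit H x) π hconn
      inferInstance faO hPL hπ hker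
  have hRO : U.R (univ : Set (MulAction.orbit H x)) = v := by
    rw [← hx]
    exact R_sub_univ
  let cH' : Cod M' H := codE hE.inj
  let cV' : Cod M' V := codE hE.inj
  have hsso := @hSSR P hP M' U' G' S' I L gG' mS' cG cS dG' fS' aS' fI iL j hPL trS' faS' v
    (hRS'.trans hRO) hv1 (by
      rw [hRG', mul_comm]
      exact hRH)
  obtain ⟨-, -, eDG, eDAb, eDA⟩ := hEXB U U' e hE
  have sH := (@hEXA M M' U U' e hE H H H cH cH cH).1
  have sV := (@hEXA M M' U U' e hE V V V cV cV cV).1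
  have hRH' := sH.R (univ : Set H) Ful.full ⟨1, mem_univ _⟩
  have hRV' := sV.R (univ : Set V) Ful.full ⟨0, mem_univ _⟩
  have hq : ∀ h : H, ∀ y ∈ MulAction.orbit H x,
      (if hy : h • y ∈ MulAction.orbit H x then q ⟨h • y, hy⟩ else
        q ⟨x, MulAction.mem_orbit_self x⟩) =
      p h • (if hy : y ∈ MulAction.orbit H x then q ⟨y, hy⟩ else
        q ⟨x, MulAction.mem_orbit_self x⟩) := by
    intro h y hy
    have h1 : h • y ∈ MulAction.orbit H x := by
      obtain ⟨g, rfl⟩ := hy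
      exact ⟨h * g, mul_smul _ _ _⟩
    rw [dif_pos hy, dif_pos h1]
    exact hQt.eqv h ⟨y, hy⟩
  refine @core hMC1 hMC2 hMC3 hHMI M' U' H V iH iV iA (codE hE.inj) (codE hE.inj) eDG eDAb eDA
    ((@Same.conn M U M' U' H iH cH (codE hE.inj) sH ⊤).2 hconn)
    ((@Same.mn M U M' U' H V iH iV iA cV (codE hE.inj) sV ⊤ ⊤).2 hmn) hfaith G' S' I L gG' mS'
    cG cS dG' iL π hker x p (fun y => if hy : y ∈ MulAction.orbit H x then q ⟨y, hy⟩ else
      q ⟨x, MulAction.mem_orbit_self x⟩) hQt.sp hQt.dp j hj hq ?_ (hRG'.trans hRH'.symm) v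
    (hRV'.trans hv.symm) hv1 hsso
  intro y hy z hz hyz
  simp only [dif_pos hy, dif_pos hz] at hyz
  obtain ⟨r, hr, h1⟩ := (hqq ⟨y, hy⟩ ⟨z, hz⟩).1 hyz
  exact ⟨r, hr, congrArg Subtype.val h1⟩

end Pool.Agent.H35.KGR
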